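import Mathlib
import Pool.Agent.H524R3.LinkDefs
import Pool.Agent.W719.AEC.Defs
import Pool.Agent.Y397.PG.Defs
import Pool.Agent.Y472.LK.Main

/-!
# The asymptotic expansion conjecture for framed links fails for every group SU(N)

The starting result `LinkExpansionFails` treats SU(2), one manifold, and one unknot of framing 0.  Here:
all groups SU(N), N ≥ 2, a large class of graph manifolds `M` (two different optimal packings of the
plumbing graph; infinitely many of them serve for all SU(N) at the same time), and all unlinks `L` in a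
ball in `M`, with any number of components, any framings and any labels; and the growth of the
invariants is determined up to powers of the logarithm.

The invariant of the pair.  Let `M` be a closed oriented 3-manifold and `L` an unlink of `p` components
in a ball in `M`.  The pair is the connected sum of `M` and `p` pairs (S³, unknot), so, with Witten's
normalisation, `Z(M, L) = Z(M) ∏_c Z(S³, unknot_c) / Z(S³)`; here `Z(S³) = S_{00}`, and for the unknot of
framing `f` and label `λ` the value `Z(S³, unknot)` is `θ_λ^f S_{0λ}`.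
-/

set_option autoImplicit false

open W719AEC Pool.Agent.Y397.PG Filter Topology Finset

namespace Pool.Agent.Results.MP_af5d62_gt.UnlinksAllSUN

variable {n m : ℕ}

/-- A label λ of SU(N) of level k₀ (a dominant integral weight λ with ⟨θ, λ⟩ ≤ k₀), encoded by its
partition λ_1 ≥ ... ≥ λ_N = 0, λ_1 ≤ k₀: the entry l i is λ_(N-i), i = 0, ..., N - 1. -/
def IsLabel (N k₀ : ℕ) (l : Fin N → ℕ) : Prop :=
  (∀ i j : Fin N, i ≤ j → l i ≤ l j) ∧ (∀ i : Fin N, (i : ℕ) = 0 → l i = 0) ∧ ∀ i, l i ≤ k₀

/-- The label s λ, encoded as in `labels` by the strictly increasing sequence s λ_(N-i) + i. -/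
def scaled {N : ℕ} (s : ℕ) (l : Fin N → ℕ) : Fin N → ℕ := fun i => s * l i + i

/-- The quantum dimension S_{0λ} / S_{00}. -/
noncomputable def quantumDim (N r : ℕ) (a : Fin N → ℕ) : ℂ :=
  Smat N r (triv N) a / Smat N r (triv N) (triv N)

/-- The level r - N quantum SU(N) invariant (Witten's normalisation, up to a factor of absolute value 1
that depends on the 2-framing) of the pair (M, L), where M is the closed oriented 3-manifold of the
plumbing graph Γ and L is the unlink of p components in a ball in M with the framings f c and the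
labels a c. -/
noncomputable def invariant (N r : ℕ) (Γ : PlumbingGraph n m) {p : ℕ} (f : Fin p → ℤ)
    (a : Fin p → Fin N → ℕ) : ℂ :=
  Γ.Z N r * ∏ c, (twist N r (a c) ^ f c * quantumDim N r (a c))

/-- The number of the positive roots α with 0 < ⟨λ, α⟩ < k₀: these are the pairs i < j with
0 < l j - l i < k₀. -/
def rootCount {N : ℕ} (k₀ : ℕ) (l : Fin N → ℕ) : ℕ :=
  ∑ i : Fin N, ((Ioi i).filter fun j => l i < l j ∧ l j < l i + k₀).card

/-- Let M be the graph manifold of Γ and L the unlink in a ball in M with framings f and labels s l c at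
the levels k = s k₀, s = 1, 2, .... With K = k + N = s k₀ + N the SU(N) invariants Z of (M, L) satisfy
c K^E log K ≤ |Z| ≤ C K^E (1 + log K)^B for all large s, with c > 0, and for no phases ω s of absolute
value 1 (in particular in no 2-framing of M) has the sequence ω s * Z an asymptotic expansion as in Q1, for
any finite family of phases q_j and any real exponents d_{j,i} (`HasLinkExpansion`). -/
def NoExpansion (N : ℕ) (Γ : PlumbingGraph n m) (k₀ : ℕ) {p : ℕ} (f : Fin p → ℤ)
    (l : Fin p → Fin N → ℕ) (E : ℝ) : Prop :=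
  (∃ (c C : ℝ) (B : ℕ), 0 < c ∧ ∀ᶠ s : ℕ in atTop,
    c * (((s * k₀ + N : ℕ) : ℝ) ^ E * Real.log ((s * k₀ + N : ℕ) : ℝ)) ≤
      ‖invariant N (s * k₀ + N) Γ f fun c => scaled s (l c)‖ ∧
    ‖invariant N (s * k₀ + N) Γ f fun c => scaled s (l c)‖ ≤
      C * (((s * k₀ + N : ℕ) : ℝ) ^ E * (1 + Real.log ((s * k₀ + N : ℕ) : ℝ)) ^ B)) ∧
  ∀ ω : ℕ → ℂ, (∀ s, ‖ω s‖ = 1) → ¬ H524R3.HasLinkExpansion N k₀
    (fun s => ω s * invariant N (s * k₀ + N) Γ f fun c => scaled s (l c))

/-- The scaled labels are labels of the level s k₀ (a check of the definitions). -/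
theorem scaled_mem {N k₀ : ℕ} {l : Fin N → ℕ} (hl : IsLabel N k₀ l) (s : ℕ) :
    scaled s l ∈ labels N (s * k₀ + N) :=
  Pool.Agent.Y472.LK.dil_mem hl s

/-- **The asymptotic expansion conjecture for framed links fails for every group SU(N).**
(1) Let N ≥ 2 and let Γ be a plumbing graph (any number of vertices and edges, loops and multiple edges
allowed, pieces of any genus) with Euler numbers 0, whose edges come in pairs of opposite sign with the
same ends, and such that the linear programme `IsOptimal` has two different solutions. For every k₀ ≥ 1,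
every p and all framings and labels of level k₀ of the components of the unlink with p components, the
expansion of Q1 fails for the graph manifold of Γ and this unlink; the growth exponent is the one of the
manifold plus, for every component with the label λ, the number of the positive roots α with
0 < ⟨λ, α⟩ < k₀.
(2) For every k ≥ 1 the graph manifold of the graph with two vertices of genus 1, joined by k positive and
k negative edges, with all these unlinks, is a counterexample for all the groups SU(N), N ≥ 2, at
the same time. -/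
theorem result :
    (∀ (N : ℕ), 2 ≤ N → ∀ (n m : ℕ) (Γ : PlumbingGraph n m), (∀ v, Γ.euler v = 0) → Doubled Γ →
      ∀ α α' : Fin n → ℝ, IsOptimal N Γ α → IsOptimal N Γ α' → α ≠ α' →
        ∀ (k₀ : ℕ), 1 ≤ k₀ → ∀ (p : ℕ) (f : Fin p → ℤ) (l : Fin p → Fin N → ℕ),
          (∀ c, IsLabel N k₀ (l c)) →
          NoExpansion N Γ k₀ f l (growth N Γ (weight N Γ α) + (∑ c, rootCount k₀ (l c) : ℕ))) ∧
    (∀ k : ℕ, 1 ≤ k → ∀ N : ℕ, 2 ≤ N → ∀ (k₀ : ℕ), 1 ≤ k₀ →
      ∀ (p : ℕ) (f : Fin p → ℤ) (l : Fin p → Fin N → ℕ), (∀ c, IsLabel N k₀ (l c)) →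
        NoExpansion N (theta k) k₀ f l
          ((((N : ℝ) ^ 2 - 1) * k + ((N : ℝ) - 1)) + (∑ c, rootCount k₀ (l c) : ℕ))) :=
  ⟨fun N hN _ _ Γ h0 hd α α' hα hα' hne k₀ hk _ f l hl =>
      Pool.Agent.Y472.LK.main N hN Γ h0 hd α α' hα hα' hne k₀ hk f l hl,
    fun k hk1 N hN k₀ hk _ f l hl =>
      Pool.Agent.Y472.LK.theta_main k hk1 N hN k₀ hk f l hl⟩

end Pool.Agent.Results.MP_af5d62_gt.UnlinksAllSUN
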